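import Mathlib
import Pool.Agent.TH507.DS.C

/-!
# Polynomial relations of exponential height between multiple zeta values hold in all families
with the stuffle product
-/

set_option autoImplicit false

namespace Pool.Agent.Y777.ST

open Finset
open Pool.Agent.TH507.WD (mz)
open Pool.Agent.TH507.WG (HP OK ar ar_nil ar_cons ar_length st st_length st_OK st_HP mz_mul
  ind_main stl stl_ok mz_prod)
open Pool.Agent.TH507.DS (st_ne list_count')

variable {A : Type*} [CommRing A]

/-- a function with the stuffle product -/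
def Fam (F : List (ℕ × ℕ) → A) : Prop := F [] = 1 ∧
  ∀ u v, HP u → OK u → HP v → OK v → F u * F v = ((st u v).map F).sum

lemma prod_gen {F : List (ℕ × ℕ) → A} (hF : Fam F) (M : List (List (ℕ × ℕ)))
    (hM : ∀ u ∈ M, HP u ∧ OK u) : (M.map F).prod = ((stl M).map F).sum := by
  induction M with
  | nil =>
    rw [stl]
    simp [hF.1]
  | cons u M ih =>
    have hM' := fun u hu => hM u (List.mem_cons_of_mem _ hu)
    rw [List.map_cons, List.prod_cons, ih hM', stl]
    have h3 : ∀ v ∈ stl M, HP v ∧ OK v := fun v hv => by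
      have h4 := stl_ok M hM' v hv
      exact ⟨h4.1, h4.2.1⟩
    have hu := hM u List.mem_cons_self
    clear ih
    revert h3
    generalize stl M = L
    intro h3
    induction L with
    | nil => simp
    | cons v L ih2 =>
      have h5 := h3 v List.mem_cons_self
      rw [List.map_cons, List.sum_cons, mul_add, hF.2 u v hu.1 hu.2 h5.1 h5.2, List.flatMap_cons,
        List.map_append, List.sum_append, ih2 fun v' hv' => h3 v' (List.mem_cons_of_mem _ hv')]

/-- the list of the words of a monomial -/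
def lst {k : ℕ} (w : Fin k → List (ℕ × ℕ)) (m : Fin k → ℕ) : List (List (ℕ × ℕ)) :=
  (List.finRange k).flatMap fun i => List.replicate (m i) (w i)

lemma mem_lst {k : ℕ} {w : Fin k → List (ℕ × ℕ)} {m : Fin k → ℕ} {u : List (ℕ × ℕ)}
    (h : u ∈ lst w m) : ∃ i, u = w i := by
  rw [lst, List.mem_flatMap] at h
  obtain ⟨i, -, hi⟩ := h
  exact ⟨i, List.eq_of_mem_replicate hi⟩

lemma prod_lst {k : ℕ} (w : Fin k → List (ℕ × ℕ)) (m : Fin k → ℕ) (F : List (ℕ × ℕ) → A) :
    ((lst w m).map F).prod = ∏ i, F (w i) ^ m i := by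
  rw [lst, List.map_flatMap]
  have h1 : ∀ L : List (Fin k), (L.flatMap fun i => (List.replicate (m i) (w i)).map F).prod =
      (L.map fun i => F (w i) ^ m i).prod := by
    intro L
    induction L with
    | nil => simp
    | cons a L ih =>
      rw [List.flatMap_cons, List.prod_append, ih, List.map_cons, List.prod_cons,
        List.map_replicate, List.prod_replicate]
  rw [h1, Fin.prod_univ_def]

/-- all monomials -/
noncomputable def Om (k D : ℕ) : Finset (Fin k →₀ ℕ) :=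
  (Finset.univ : Finset (Fin k → Fin (D + 1))).image
    fun g => Finsupp.equivFunOnFinite.symm fun i => (g i : ℕ)

lemma mem_Om {k D : ℕ} {m : Fin k →₀ ℕ} (h : ∀ i, m i ≤ D) : m ∈ Om k D := by
  rw [Om, mem_image]
  refine ⟨fun i => ⟨m i, by have := h i; omega⟩, mem_univ _, ?_⟩
  ext i
  simp

/-- all words -/
noncomputable def Wo {k : ℕ} (w : Fin k → List (ℕ × ℕ)) (D : ℕ) : Finset (List (ℕ × ℕ)) :=
  (Om k D).biUnion fun m => (stl (lst w m)).toFinset

/-- the coefficient of a word -/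
noncomputable def Cf {k : ℕ} (w : Fin k → List (ℕ × ℕ)) (D : ℕ) (f : MvPolynomial (Fin k) ℤ)
    (v : List (ℕ × ℕ)) : ℤ :=
  ∑ m ∈ Om k D, f.coeff m * ((stl (lst w m)).countP (· = v) : ℤ)

lemma aeval_eq {k : ℕ} (w : Fin k → List (ℕ × ℕ)) (hw : ∀ i, HP (w i) ∧ OK (w i)) (D : ℕ)
    (f : MvPolynomial (Fin k) ℤ) (hf : ∀ m ∈ f.support, ∀ i, m i ≤ D) (F : List (ℕ × ℕ) → A)
    (hF : ∀ m ∈ Om k D, ((lst w m).map F).prod = ((stl (lst w m)).map F).sum) :
    MvPolynomial.aeval (fun i => F (w i)) f = ∑ v ∈ Wo w D, (Cf w D f v : A) * F v := by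
  have h0 : MvPolynomial.aeval (fun i => F (w i)) f =
      ∑ m ∈ Om k D, ((f.coeff m : ℤ) : A) * ∏ i, F (w i) ^ m i := by
    rw [MvPolynomial.aeval_def, MvPolynomial.eval₂_eq']
    refine Finset.sum_subset (fun m hm => mem_Om (hf m hm)) fun m _ hm => ?_
    rw [MvPolynomial.notMem_support_iff.1 hm]
    simp
  rw [h0]
  have h1 : ∀ m ∈ Om k D, ((f.coeff m : ℤ) : A) * ∏ i, F (w i) ^ m i =
      ∑ v ∈ Wo w D, ((f.coeff m : ℤ) : A) * ((stl (lst w m)).countP (· = v) : A) * F v := by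
    intro m hm
    rw [← prod_lst, hF m hm, list_count' (stl (lst w m)) F (Wo w D)
      (fun v hv => mem_biUnion.2 ⟨m, hm, List.mem_toFinset.2 hv⟩), mul_sum]
    refine sum_congr rfl fun v _ => ?_
    rw [zsmul_eq_mul, Int.cast_natCast, mul_assoc]
  rw [sum_congr rfl h1, sum_comm]
  refine sum_congr rfl fun v _ => ?_
  rw [← sum_mul, Cf]
  push_cast
  rfl

theorem main {k : ℕ} (w : Fin k → List (ℕ × ℕ)) (hw : ∀ i, HP (w i) ∧ OK (w i)) (D : ℕ) (C : ℝ) :
    ∃ B : ℝ, 1 < B ∧ ∃ n0 : ℕ, ∀ n : ℕ, n0 ≤ n → ∀ f : MvPolynomial (Fin k) ℤ,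
      (∀ m ∈ f.support, ∀ i, m i ≤ D) → (∀ m, |((f.coeff m : ℤ) : ℝ)| ≤ C ^ n) →
      |MvPolynomial.aeval (fun i => mz (ar n (w i))) f| ≤ (B ^ n)⁻¹ →
      ∀ v, Cf w D f v = 0 := by
  have hok : ∀ m : Fin k → ℕ, ∀ u ∈ lst w m, HP u ∧ OK u := fun m u hu => by
    obtain ⟨i, rfl⟩ := mem_lst hu
    exact hw i
  set S : ℝ := ∑ m ∈ Om k D, ((stl (lst w m)).length : ℝ) with hS
  have hS0 : 0 ≤ S := sum_nonneg fun _ _ => Nat.cast_nonneg _
  obtain ⟨B, hB, n0, hmain⟩ := ind_main ((Wo w D).erase []) (fun h => (mem_erase.1 h).1 rfl)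
    (fun v hv => by
      obtain ⟨m, -, hv⟩ := mem_biUnion.1 (mem_erase.1 hv).2
      exact (stl_ok _ (hok m) v (List.mem_toFinset.1 hv)).1)
    (fun v hv => by
      obtain ⟨m, -, hv⟩ := mem_biUnion.1 (mem_erase.1 hv).2
      exact (stl_ok _ (hok m) v (List.mem_toFinset.1 hv)).2.1) ((S + 1) * |C|)
  refine ⟨B, hB, n0 + 1 + ∑ m ∈ Om k D, (((lst w m).map List.length).sum + 1),
    fun n hn f hf hC hv => ?_⟩
  have hlen : ∀ m ∈ Om k D, ((lst w m).map List.length).sum + 1 ≤ n := fun m hm => by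
    have := single_le_sum (f := fun m : Fin k →₀ ℕ => ((lst w m).map List.length).sum + 1)
      (fun _ _ => Nat.zero_le _) hm
    omega
  have hbound : ∀ v ∈ (Wo w D).erase [], |(Cf w D f v : ℝ)| ≤ ((S + 1) * |C|) ^ n := by
    intro v _
    rw [Cf]
    push_cast
    calc |∑ m ∈ Om k D, ((f.coeff m : ℤ) : ℝ) * ((stl (lst w m)).countP (· = v) : ℝ)| ≤
        ∑ m ∈ Om k D, |((f.coeff m : ℤ) : ℝ) * ((stl (lst w m)).countP (· = v) : ℝ)| :=
          abs_sum_le_sum_abs _ _
      _ ≤ ∑ m ∈ Om k D, |C| ^ n * ((stl (lst w m)).length : ℝ) := by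
        refine sum_le_sum fun m _ => ?_
        rw [abs_mul, Nat.abs_cast]
        refine mul_le_mul ((hC m).trans ((le_abs_self _).trans (abs_pow _ _).le)) ?_
          (Nat.cast_nonneg _) (by positivity)
        exact_mod_cast List.countP_le_length
      _ = |C| ^ n * S := by rw [hS, mul_sum]
      _ ≤ |C| ^ n * (S + 1) ^ n := by
        refine mul_le_mul_of_nonneg_left ?_ (by positivity)
        calc S ≤ S + 1 := by linarith
          _ ≤ (S + 1) ^ n := le_self_pow₀ (by linarith) (by omega)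
      _ = ((S + 1) * |C|) ^ n := by rw [mul_pow, mul_comm]
  have h0 : (0 : Fin k →₀ ℕ) ∈ Om k D := mem_Om fun i => by simp
  have hnil : ([] : List (ℕ × ℕ)) ∈ Wo w D := by
    refine mem_biUnion.2 ⟨0, h0, List.mem_toFinset.2 ?_⟩
    have : lst w (0 : Fin k →₀ ℕ) = [] := by
      rw [lst, List.flatMap_eq_nil_iff]
      intro i _
      simp
    rw [this, stl]
    exact List.mem_singleton.2 rfl
  have key := aeval_eq (A := ℝ) w hw D f hf (fun u => mz (ar n u))
    (fun m hm => mz_prod _ (hok m) (hlen m hm))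
  rw [← Finset.add_sum_erase _ _ hnil] at key
  have hmz : mz (ar n []) = 1 := by rw [ar_nil, mz]
  rw [hmz, mul_one] at key
  have hz : Cf w D f [] = 0 ∧ ∀ v ∈ (Wo w D).erase [], Cf w D f v = 0 := by
    by_contra hz
    have hz' : Cf w D f [] ≠ 0 ∨ ∃ v ∈ (Wo w D).erase [], Cf w D f v ≠ 0 := by
      by_contra h
      push Not at h
      exact hz h
    have h1 := hmain n (by omega) (Cf w D f []) (Cf w D f) hbound hz'
    rw [← key] at h1
    exact absurd hv (not_le.2 h1)
  intro v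
  by_cases hvW : v ∈ Wo w D
  · by_cases hv0 : v = []
    · rw [hv0]
      exact hz.1
    · exact hz.2 v (mem_erase.2 ⟨hv0, hvW⟩)
  · rw [Cf]
    refine sum_eq_zero fun m hm => ?_
    have h2 : (stl (lst w m)).countP (· = v) = 0 := by
      rw [List.countP_eq_zero]
      intro u hu huv
      rw [decide_eq_true_eq] at huv
      subst huv
      exact hvW (mem_biUnion.2 ⟨m, hm, List.mem_toFinset.2 hu⟩)
    rw [h2, Nat.cast_zero, mul_zero]

end Pool.Agent.Y777.ST
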